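import Pool.Agent.H.MP_ada34c_an.A

namespace Pool.Agent.H.MP_ada34c_an

open Finset Real Filter Topology MeasureTheory
open scoped ENNReal

variable (P : ℝ≥0∞)

/-- `p`-integrable functions -/
def M : Submodule ℝ (ℝ → ℝ) where
  carrier := {f | MemLp f P volume}
  add_mem' h h' := MemLp.add h h'
  zero_mem' := MemLp.zero
  smul_mem' c _ h := MemLp.const_smul h c

/-- the class of a function -/
noncomputable def T : M P →ₗ[ℝ] Lp ℝ P (volume : Measure ℝ) where
  toFun f := MemLp.toLp f.1 f.2
  map_add' f g := MemLp.toLp_add f.2 g.2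
  map_smul' c f := MemLp.toLp_const_smul c f.2

/-- indicator of an interval -/
noncomputable def ind (a b : ℝ) : M P :=
  ⟨(Set.Ico a b).indicator fun _ => 1, memLp_indicator_const P measurableSet_Ico 1 (by simp)⟩

variable {P}

lemma ind_apply (a b x : ℝ) : (ind P a b).1 x = if a ≤ x ∧ x < b then 1 else 0 := by
  simp [ind, Set.indicator_apply]

lemma ind_int {a b : ℝ} (h : a ≤ b) (c : ℝ) :
    Integrable (fun x => c * (ind P a b).1 x) ∧ ∫ x, c * (ind P a b).1 x = c * (b - a) := by
  refine ⟨Integrable.const_mul ((integrable_indicator_iff measurableSet_Ico).2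
    (integrableOn_const (by simp))) c, ?_⟩
  rw [integral_const_mul, ind, integral_indicator_const _ measurableSet_Ico,
    Real.volume_real_Ico_of_le h, smul_eq_mul, mul_one]

lemma ind_add {a b c : ℝ} (h : a ≤ b) (h' : b ≤ c) : ind P a b + ind P b c = ind P a c :=
  Subtype.ext (funext fun x => by
    simp only [Submodule.coe_add, Pi.add_apply, ind_apply]
    split_ifs <;> grind)

/-- signed indicator -/
noncomputable def gm (P : ℝ≥0∞) (x : ℝ) : M P := ind P 0 x - ind P x 0

lemma gm_add {a b : ℝ} (h : a ≤ b) : gm P a + ind P a b = gm P b :=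
  Subtype.ext (funext fun x => by
    simp only [gm, Submodule.coe_add, Submodule.coe_sub, Pi.add_apply, Pi.sub_apply, ind_apply]
    split_ifs <;> grind)

variable [Fact (1 ≤ P)] (hp : 1 < P.toReal)
include hp

omit [Fact (1 ≤ P)] in
lemma P_ne : P ≠ 0 ∧ P ≠ ⊤ := by
  constructor <;> rintro rfl <;> norm_num at hp

lemma Tn (f : M P) : ‖T P f‖ ^ P.toReal = ∫ x, |f.1 x| ^ P.toReal := by
  rw [show ‖T P f‖ = _ from Lp.norm_toLp f.1 f.2,
    MemLp.eLpNorm_eq_integral_rpow_norm (P_ne hp).1 (P_ne hp).2 f.2,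
    ENNReal.toReal_ofReal (by positivity), rpow_inv_rpow (by positivity) (by linarith)]
  rfl

omit [Fact (1 ≤ P)] in
lemma pint (f : M P) : Integrable fun x => |f.1 x| ^ P.toReal :=
  MemLp.integrable_norm_rpow f.2 (P_ne hp).1 (P_ne hp).2

lemma dsum {ι : Type} [Fintype ι] (a b c : ι → ℝ) (hab : ∀ i, a i ≤ b i)
    (hd : Pairwise fun i j => Disjoint (Set.Ico (a i) (b i)) (Set.Ico (a j) (b j))) :
    ‖T P (∑ i, c i • ind P (a i) (b i))‖ ^ P.toReal = ∑ i, |c i| ^ P.toReal * (b i - a i) := by
  rw [Tn hp, ← sum_congr rfl fun i _ => (ind_int (P := P) (hab i) _).2,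
    ← integral_finset_sum _ fun i _ => (ind_int (hab i) _).1]
  congr 1
  funext x
  simp only [Submodule.coe_sum, Finset.sum_apply, Submodule.coe_smul, Pi.smul_apply, smul_eq_mul,
    ind_apply]
  by_cases h : ∃ i, x ∈ Set.Ico (a i) (b i)
  · obtain ⟨i, hi⟩ := h
    have h1 : ∀ j, j ≠ i → ¬ (a j ≤ x ∧ x < b j) := fun j hj hx =>
      Set.disjoint_left.1 (hd hj) hx hi
    rw [sum_eq_single i (fun j _ hj => by simp [h1 j hj]) (by simp),
      sum_eq_single i (fun j _ hj => by simp [h1 j hj]) (by simp),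
      if_pos (Set.mem_Ico.1 hi), mul_one, mul_one]
  · have h1 : ∀ j, ¬ (a j ≤ x ∧ x < b j) := fun j hx => h ⟨j, hx⟩
    simp [h1, show P.toReal ≠ 0 by linarith]

lemma ind_norm {a b : ℝ} (h : a ≤ b) (c : ℝ) :
    ‖T P (c • ind P a b)‖ ^ P.toReal = |c| ^ P.toReal * (b - a) := by
  simpa using dsum hp (ι := Unit) (fun _ => a) (fun _ => b) (fun _ => c) (fun _ => h)
    Subsingleton.pairwise

lemma T_mono {f w v : M P} {c : ℝ} (h1 : ∀ x, w.1 x ≠ 0 → f.1 x = c)
    (h2 : ∀ x, v.1 x ≠ 0 → f.1 x = 0) (h3 : Integrable w.1) (h4 : ∫ x, w.1 x = 0) :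
    ‖T P f‖ ≤ ‖T P (f + (w + v))‖ := by
  rw [← rpow_le_rpow_iff (norm_nonneg _) (norm_nonneg _) (show 0 < P.toReal by linarith), Tn hp,
    Tn hp]
  have h5 := integral_add (pint hp f) (h3.const_mul (P.toReal * |c| ^ P.toReal / c))
  rw [integral_const_mul, h4, mul_zero, add_zero] at h5
  rw [← h5]
  refine integral_mono ((pint hp f).add (h3.const_mul _)) (pint hp _) fun x => ?_
  refine le_of_eq_of_le ?_ (tangent hp (f.1 x) (w.1 x + v.1 x))
  beta_reduce
  rw [mul_add]
  by_cases h6 : w.1 x = 0 <;> by_cases h7 : v.1 x = 0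
  · simp [h6, h7]
  · simp [h6, h2 x h7]
  · simp [h7, h1 x h6]
  · simp [← h1 x h6, h2 x h7]

lemma T_ne {f : M P} {a b c : ℝ} (hc : 0 < c) (h : a < b) (h1 : ∀ x, c * (ind P a b).1 x ≤ f.1 x) :
    T P f ≠ 0 := fun h0 => by
  have h2 := ind_norm hp h.le c
  have h3 := Tn hp f
  rw [Tn hp] at h2
  rw [h0, norm_zero, zero_rpow (by linarith)] at h3
  have h4 := integral_mono (pint hp (c • ind P a b)) (pint hp f) fun x =>
    rpow_le_rpow (abs_nonneg _) (abs_le_abs_of_nonneg (show 0 ≤ c * (ind P a b).1 x by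
      rw [ind_apply]; split_ifs <;> simp [hc.le]) (h1 x)) (by linarith)
  rw [h2, ← h3] at h4
  exact h4.not_gt (mul_pos (rpow_pos_of_pos (abs_pos.2 hc.ne') _) (sub_pos.2 h))

lemma top_of (Y : Submodule ℝ (Lp ℝ P (volume : Measure ℝ)))
    (hY : IsClosed (Y : Set (Lp ℝ P (volume : Measure ℝ))))
    (h : ∀ x : ℝ, ∀ r : ℕ, ∃ e, e ≤ x ∧ x - e ≤ (1 / 2) ^ r ∧ T P (gm P e) ∈ Y)
    (f : Lp ℝ P (volume : Measure ℝ)) : f ∈ Y := by
  have h1 : ∀ x, T P (gm P x) ∈ Y := fun x => by
    choose e h1 h2 h3 using h x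
    refine hY.mem_of_tendsto (b := atTop) (tendsto_iff_norm_sub_tendsto_zero.2 (squeeze_zero
      (fun _ => norm_nonneg _) (fun r => ?_) (g := fun r : ℕ => ((1 / 2) ^ r) ^ P.toReal⁻¹ * 1) ?_))
      (Eventually.of_forall h3)
    · refine root_le hp zero_le_one (by positivity) ?_
      rw [norm_sub_rev, ← map_sub, ← gm_add (h1 r), add_sub_cancel_left, ← one_smul ℝ (ind _ _ _),
        ind_norm hp (h1 r)]
      simpa using h2 r
    · have := (tendsto_pow_atTop_nhds_zero_of_lt_one (r := (1 / 2 : ℝ)) (by norm_num)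
        (by norm_num)).rpow_const (p := P.toReal⁻¹) (Or.inr (by positivity))
      rw [zero_rpow (by positivity)] at this
      simpa using this
  have h2 : ∀ a b, T P (ind P a b) ∈ Y := fun a b => by
    rcases le_total a b with h3 | h3
    · rw [eq_sub_of_add_eq' (gm_add h3), map_sub]
      exact Y.sub_mem (h1 b) (h1 a)
    · rw [show ind P a b = 0 from Subtype.ext (funext fun x => by
        rw [ind_apply, if_neg (by grind)]; rfl), map_zero]
      exact Y.zero_mem
  have h3 : ∀ (s : ℕ → Set ℝ) (hs : ∀ n, MeasurableSet (s n)) (u : Set ℝ) (hu : MeasurableSet u)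
      (hf : volume u ≠ ⊤) (hsu : ∀ n, s n ⊆ u), Monotone s → u ⊆ ⋃ n, s n →
      (∀ n, indicatorConstLp P (hs n) (measure_ne_top_of_subset (hsu n) hf) (1 : ℝ) ∈ Y) →
      indicatorConstLp P hu hf (1 : ℝ) ∈ Y := fun s hs u hu hf hsu hm hc hY' => by
    refine hY.mem_of_tendsto (b := atTop) (tendsto_indicatorConstLp_set (P_ne hp).2 ?_)
      (Eventually.of_forall hY')
    have := tendsto_measure_iInter_atTop (μ := volume) (s := fun n => u \ s n)
      (fun n => (hu.diff (hs n)).nullMeasurableSet) (fun i j h => Set.diff_subset_diff_right (hm h))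
      ⟨0, measure_ne_top_of_subset Set.diff_subset hf⟩
    rw [← Set.diff_iUnion, Set.diff_eq_empty.2 hc, measure_empty] at this
    simp only [fun n => symmDiff_of_le (hsu n)]
    exact this
  have h4 : ∀ (a b : ℝ) (s : Set ℝ) (hs : MeasurableSet s), indicatorConstLp P
      (hs.inter (measurableSet_Ico (a := a) (b := b)))
      (measure_ne_top_of_subset Set.inter_subset_right (by simp)) (1 : ℝ) ∈ Y := fun a b => by
    refine MeasurableSpace.induction_on_inter (borel_eq_generateFrom_Iio ℝ) isPiSystem_Iio ?_ ?_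
      (fun s hs ih => ?_) fun s hd hs ih => ?_
    · simp
    · rintro _ ⟨c, rfl⟩
      convert h2 a (min b c) using 1
      simp only [Set.inter_comm (Set.Iio c), Set.Ico_inter_Iio]
      rfl
    · have := indicatorConstLp_disjoint_union (p := P) (μ := volume)
        (hs.inter (measurableSet_Ico (a := a) (b := b)))
        (hs.compl.inter (measurableSet_Ico (a := a) (b := b)))
        (measure_ne_top_of_subset Set.inter_subset_right (by simp))
        (measure_ne_top_of_subset Set.inter_subset_right (by simp))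
        (disjoint_compl_right.mono Set.inter_subset_left Set.inter_subset_left) (1 : ℝ)
      refine (eq_sub_iff_add_eq'.2 this.symm).symm ▸ Y.sub_mem ?_ ih
      convert h2 a b using 1
      simp only [← Set.union_inter_distrib_right, Set.union_compl_self, Set.univ_inter]
      rfl
    · refine h3 (fun n => Set.accumulate s n ∩ Set.Ico a b) (fun n => (MeasurableSet.biUnion
        (Set.to_countable _) fun i _ => hs i).inter measurableSet_Ico) _ _ _
        (fun n => Set.inter_subset_inter_left _ (Set.accumulate_subset_iUnion n))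
        (fun i j h => Set.inter_subset_inter_left _ (Set.monotone_accumulate h))
        (by rw [← Set.iUnion_inter, Set.iUnion_accumulate]) fun n => ?_
      induction n with
      | zero => simpa using ih 0
      | succ n ih' =>
        convert Y.add_mem ih' (ih (n + 1)) using 1
        rw [← indicatorConstLp_disjoint_union _ _ _ _ ((Set.disjoint_accumulate hd
          n.lt_succ_self).mono Set.inter_subset_left Set.inter_subset_left)]
        simp only [Set.accumulate_succ, Set.union_inter_distrib_right]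
  refine Lp.induction (P_ne hp).2 (· ∈ Y) (fun c s hs hf => ?_)
    (fun _ _ _ _ _ h5 h6 => Y.add_mem h5 h6) hY f
  have h5 := h3 (fun n => s ∩ Set.Ico (-n : ℝ) n) (fun n => hs.inter measurableSet_Ico) s hs hf.ne
    (fun n => Set.inter_subset_left) (fun i j h => Set.inter_subset_inter_right _
      (Set.Ico_subset_Ico (by simpa using h) (by simpa using h))) (fun x hx => by
        obtain ⟨n, hn⟩ := exists_nat_gt |x|
        exact Set.mem_iUnion.2 ⟨n, hx, (abs_lt.1 hn).1.le, (abs_lt.1 hn).2⟩) fun n => h4 _ _ s hs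
  convert Y.smul_mem c h5
  rw [Lp.simpleFunc.coe_indicatorConst, indicatorConstLp, indicatorConstLp,
    ← MemLp.toLp_const_smul]
  congr 1
  funext x
  by_cases hx : x ∈ s <;> simp [hx]

end Pool.Agent.H.MP_ada34c_an
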