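import Pool.Agent.H.MP_a83649_an.A

namespace Pool.Agent.H.MP_ada34c_an

open Finset Real Filter Topology

theorem grun {X : Type} [NormedAddCommGroup X] [NormedSpace ℝ X] [CompleteSpace X] (f : ℕ → X)
    {K : ℝ} (hK : ∀ (a : ℕ → ℝ) (m k : ℕ), m ≤ k →
      ‖∑ n ∈ range m, a n • f n‖ ≤ K * ‖∑ n ∈ range k, a n • f n‖) (h0 : ∀ n, f n ≠ 0)
    (hd : Dense (Submodule.span ℝ (Set.range f) : Set X)) (x : X) :
    ∃! a : ℕ → ℝ, Tendsto (fun N => ∑ n ∈ range N, a n • f n) atTop (𝓝 x) := by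
  let T := Finsupp.linearCombination ℝ f
  have hT : DenseRange T := by rwa [← Finsupp.range_linearCombination] at hd
  have h1 : ∀ a : ℕ →₀ ℝ, ∀ᶠ N in atTop, ∑ n ∈ range N, a n • f n = T a := fun a => by
    obtain ⟨M, hM⟩ := a.support.exists_nat_subset_range
    filter_upwards [eventually_ge_atTop M] with N hN
    exact (Finsupp.sum_of_support_subset a (hM.trans (range_mono hN)) (fun i c => c • f i)
      fun _ _ => zero_smul _ _).symm
  have h2 : ∀ (a : ℕ →₀ ℝ) m, ‖∑ n ∈ range m, a n • f n‖ ≤ K * ‖T a‖ := fun a m => by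
    obtain ⟨N, h3, h4⟩ := ((h1 a).and (eventually_ge_atTop m)).exists
    exact h3 ▸ hK a m N h4
  have h3 : ∀ n, ∃ C, ∀ a : ℕ →₀ ℝ, ‖Finsupp.lapply (R := ℝ) n a‖ ≤ C * ‖T a‖ := fun n => by
    refine ⟨2 * K / ‖f n‖, fun a => ?_⟩
    have := norm_sub_le_of_le (h2 a (n + 1)) (h2 a n)
    rw [sum_range_succ, add_sub_cancel_left, norm_smul] at this
    rw [div_mul_eq_mul_div, le_div_iff₀ (norm_pos_iff.2 (h0 n)), Finsupp.lapply_apply]
    linarith
  let P : ℕ → X →L[ℝ] X := fun m => ∑ n ∈ range m,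
    ((Finsupp.lapply (R := ℝ) n).extendOfNorm T).smulRight (f n)
  have h4 : ∀ m y, P m y = ∑ n ∈ range m, (Finsupp.lapply (R := ℝ) n).extendOfNorm T y • f n :=
    fun m y => by simp [P]
  have h5 : ∀ m a, P m (T a) = ∑ n ∈ range m, a n • f n := fun m a => by
    simp only [h4, LinearMap.extendOfNorm_eq hT (h3 _), Finsupp.lapply_apply]
  have h6 : ∀ m y, ‖P m y‖ ≤ K * ‖y‖ := fun m y => hT.induction_on y
    (isClosed_le (by fun_prop) (by fun_prop)) fun a => h5 m a ▸ h2 a m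
  refine ⟨fun n => (Finsupp.lapply (R := ℝ) n).extendOfNorm T x, ?_, fun a ha => ?_⟩
  · simp only [← h4]
    refine Metric.tendsto_nhds.2 fun ε hε => ?_
    obtain ⟨a, ha⟩ := hT.exists_dist_lt x (show 0 < ε / (|K| + 1) by positivity)
    filter_upwards [h1 a] with N hN
    rw [dist_eq_norm, lt_div_iff₀ (by positivity)] at ha
    have h7 := (h6 N (x - T a)).trans (mul_le_mul_of_nonneg_right (le_abs_self K) (norm_nonneg _))
    rw [map_sub, h5, hN] at h7
    have h8 := norm_sub_le (P N x - T a) (x - T a)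
    rw [sub_sub_sub_cancel_right] at h8
    rw [dist_eq_norm]
    linarith
  · funext n
    refine tendsto_nhds_unique (tendsto_const_nhds.congr' ?_)
      ((((Finsupp.lapply (R := ℝ) n).extendOfNorm T).continuous.tendsto x).comp ha)
    filter_upwards [eventually_gt_atTop n] with N hN
    have : ∑ i ∈ range N, a i • f i = T (∑ i ∈ range N, Finsupp.single i (a i)) := by
      simp [T]
    rw [Function.comp, this, LinearMap.extendOfNorm_eq hT (h3 _)]
    simp [Finsupp.single_apply, hN]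

variable {p : ℝ}

lemma hilb (hp : 1 < p) : ∃ C, 0 ≤ C ∧ ∀ (f : ℕ → ℝ) (n M : ℕ), (∀ y, 0 ≤ f y) →
    ∑ x ∈ range M, (∑ y ∈ range n, (x + y + 2 : ℝ)⁻¹ * f y) ^ p ≤ C * ∑ y ∈ range n, f y ^ p := by
  have hp0 : 0 < p := by linarith
  have hi : p⁻¹ < 1 := inv_lt_one_of_one_lt₀ hp
  have hi0 : 0 < p⁻¹ := inv_pos.2 hp0
  obtain ⟨C1, hC1, h1⟩ := MP_a83649_an.hil hi0 hi
  obtain ⟨C2, hC2, h2⟩ := MP_a83649_an.hil (γ := 1 - p⁻¹) (by linarith) (by linarith)
  refine ⟨C1 ^ (p - 1) * C2, by positivity, fun f n M hf => ?_⟩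
  have e0 : (1 - p⁻¹) * p = p - 1 := by field_simp
  have b3 : ∀ x : ℕ, (∑ y ∈ range n, (x + y + 2 : ℝ)⁻¹ * f y) ^ p ≤ C1 ^ (p - 1) *
      ∑ y ∈ range n, (x + 1 : ℝ) ^ (-(1 - p⁻¹)) / (y + x + 2) * ((y + 1 : ℝ) ^ (1 - p⁻¹) *
        f y ^ p) := fun x => by
    have hol := inner_le_weight_mul_Lp_of_nonneg (range n) hp.le
      (fun y => (y + 1 : ℝ) ^ (-p⁻¹) / (x + y + 2)) (fun y => (y + 1 : ℝ) ^ p⁻¹ * f y)
      (fun y => by positivity) (fun y => by have := hf y; positivity)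
    have e1 : ∀ y : ℕ, (y + 1 : ℝ) ^ (-p⁻¹) / (x + y + 2) * ((y + 1 : ℝ) ^ p⁻¹ * f y) =
        (x + y + 2 : ℝ)⁻¹ * f y := fun y => by
      rw [rpow_neg (by positivity)]
      field_simp
    have e2 : ∀ y : ℕ, (y + 1 : ℝ) ^ (-p⁻¹) / (x + y + 2) * ((y + 1 : ℝ) ^ p⁻¹ * f y) ^ p =
        (y + x + 2 : ℝ)⁻¹ * ((y + 1 : ℝ) ^ (1 - p⁻¹) * f y ^ p) := fun y => by
      rw [mul_rpow (by positivity) (hf y), rpow_inv_rpow (by positivity) hp0.ne',
        rpow_sub (by positivity), rpow_one, rpow_neg (by positivity), add_comm (y : ℝ) x]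
      field_simp
    simp only [e1, e2] at hol
    have s1 : 0 ≤ ∑ y ∈ range n, (y + 1 : ℝ) ^ (-p⁻¹) / (x + y + 2) :=
      sum_nonneg fun y _ => by positivity
    have s2 : 0 ≤ ∑ y ∈ range n, (y + x + 2 : ℝ)⁻¹ * ((y + 1 : ℝ) ^ (1 - p⁻¹) * f y ^ p) :=
      sum_nonneg fun y _ => by have := hf y; positivity
    refine (rpow_le_rpow (sum_nonneg fun y _ => mul_nonneg (by positivity) (hf y)) hol
      hp0.le).trans ?_
    rw [mul_rpow (by positivity) (by positivity), ← rpow_mul s1, rpow_inv_rpow s2 hp0.ne', e0]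
    simp only [div_eq_mul_inv ((x + 1 : ℝ) ^ (-(1 - p⁻¹))), mul_assoc, ← mul_sum]
    rw [← mul_assoc]
    refine mul_le_mul_of_nonneg_right ((rpow_le_rpow s1 (h1 x n) (by linarith)).trans_eq ?_) s2
    rw [mul_rpow hC1 (by positivity), ← rpow_mul (by positivity)]
    congr 2
    field_simp
  refine (sum_le_sum fun x _ => b3 x).trans ?_
  rw [← mul_sum, sum_comm, mul_assoc]
  refine mul_le_mul_of_nonneg_left ?_ (by positivity)
  rw [mul_sum]
  refine sum_le_sum fun y _ => ?_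
  rw [← sum_mul]
  refine (mul_le_mul_of_nonneg_right (h2 y M) (by have := hf y; positivity)).trans_eq ?_
  rw [rpow_neg (by positivity)]
  field_simp

/-- the cyclic convolution matrix -/
noncomputable def sm (L l k : ℕ) : ℝ := ((if k ≤ l then l - k else l + L - k : ℕ) + 2 : ℝ)⁻¹

lemma sm_pos (L l k : ℕ) : 0 < sm L l k := by unfold sm; positivity

lemma sm_col {L k : ℕ} (hk : k < L) : ∑ l ∈ range L, sm L l k = ∑ m ∈ range L, (m + 2 : ℝ)⁻¹ := by
  obtain ⟨r, rfl⟩ := Nat.exists_eq_add_of_le hk.le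
  rw [sum_range_add, add_comm, add_comm k r, sum_range_add]
  congr 1 <;> refine sum_congr rfl fun l hl => ?_
  · simp [sm]
  · have := mem_range.1 hl
    rw [sm, if_neg (by omega), show l + (r + k) - k = r + l by omega]

/-- truncation -/
noncomputable def tr (n : ℕ) (a : ℕ → ℝ) (k : ℕ) : ℝ := if k < n then a k else 0

/-- `p`-th power sum -/
noncomputable def S (p : ℝ) (L : ℕ) (u : ℕ → ℝ) : ℝ := ∑ k ∈ range L, |u k| ^ p

lemma S_nonneg (L : ℕ) (u : ℕ → ℝ) : 0 ≤ S p L u := sum_nonneg fun _ _ => by positivity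

lemma S_tr (hp : 1 < p) (L n : ℕ) (u : ℕ → ℝ) : S p L (tr n u) ≤ S p L u :=
  sum_le_sum fun k _ => rpow_le_rpow (abs_nonneg _) (by unfold tr; split_ifs <;> simp)
    (by linarith)

lemma add_pow_le (hp : 1 < p) (a b : ℝ) : |a + b| ^ p ≤ 2 ^ p * (|a| ^ p + |b| ^ p) := by
  wlog h : |a| ≤ |b| generalizing a b
  · rw [add_comm a, add_comm (|a| ^ p)]
    exact this b a (not_le.1 h).le
  refine (rpow_le_rpow (abs_nonneg _) (show _ ≤ 2 * |b| by linarith [abs_add_le a b])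
    (by linarith)).trans ?_
  rw [mul_rpow zero_le_two (abs_nonneg _)]
  exact mul_le_mul_of_nonneg_left (le_add_of_nonneg_left (by positivity)) (by positivity)

/-- the second coordinates -/
noncomputable def vv (L : ℕ) (α β : ℕ → ℝ) (l : ℕ) : ℝ := β l + ∑ k ∈ range L, sm L l k * α k

lemma hankel (hp : 1 < p) : ∃ C, 0 ≤ C ∧ ∀ (L n n' : ℕ) (α β : ℕ → ℝ), n' ≤ n → n ≤ n' + 1 →
    S p L (vv L (tr n α) (tr n' β)) ≤ C * (S p L α + S p L (vv L α β)) := by
  obtain ⟨C, hC, h⟩ := hilb hp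
  have hp0 : 0 ≤ p := by linarith
  refine ⟨2 ^ p * (1 + C) + C, by positivity, fun L n n' α β h1 h2 => ?_⟩
  have a1 := h (fun j => |α (L - 1 - j)|) L L fun _ => abs_nonneg _
  have a2 := h (fun j => |tr L α (n' - j)|) (n' + 1) L fun _ => abs_nonneg _
  rw [sum_range_reflect (fun j => |α j| ^ p)] at a1
  have a3 : ∑ j ∈ range (n' + 1), |tr L α (n' - j)| ^ p ≤ S p L α := by
    have := sum_range_reflect (fun j => |tr L α j| ^ p) (n' + 1)
    simp only [Nat.add_sub_cancel] at this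
    rw [this]
    refine (sum_le_sum_of_subset_of_nonneg (range_mono (Nat.le_add_left _ L))
      fun _ _ _ => by positivity).trans_eq ?_
    rw [sum_range_add, sum_eq_zero (s := range (n' + 1)) fun i _ => by
      simp [tr, show p ≠ 0 by linarith], add_zero]
    exact sum_congr rfl fun i hi => by rw [tr, if_pos (mem_range.1 hi)]
  have b1 : ∀ l < n', |vv L (tr n α) (tr n' β) l| ^ p ≤ 2 ^ p * (|vv L α β l| ^ p +
      (∑ j ∈ range L, (l + j + 2 : ℝ)⁻¹ * |α (L - 1 - j)|) ^ p) := fun l hl => by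
    have : vv L (tr n α) (tr n' β) l =
        vv L α β l + ∑ k ∈ range L, sm L l k * (tr n α k - α k) := by
      simp only [vv, mul_sub, sum_sub_distrib, tr, if_pos hl]
      ring
    rw [this]
    refine (add_pow_le hp _ _).trans (mul_le_mul_of_nonneg_left (add_le_add_right
      (rpow_le_rpow (abs_nonneg _) ((abs_sum_le_sum_abs _ _).trans ?_) hp0) _) (by positivity))
    rw [← sum_range_reflect]
    refine sum_le_sum fun j hj => ?_
    have := mem_range.1 hj
    rw [abs_mul, abs_of_pos (sm_pos ..), tr]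
    split_ifs with h3
    · simp only [sub_self, abs_zero, mul_zero]
      positivity
    · rw [zero_sub, abs_neg, sm, if_neg (by omega), show l + L - (L - 1 - j) = l + j + 1 by omega]
      push_cast
      exact mul_le_mul_of_nonneg_right (inv_anti₀ (by positivity) (by linarith)) (abs_nonneg _)
  have b2 : ∀ i, |vv L (tr n α) (tr n' β) (n' + i)| ^ p ≤
      (∑ j ∈ range (n' + 1), (i + j + 2 : ℝ)⁻¹ * |tr L α (n' - j)|) ^ p := fun i => by
    refine rpow_le_rpow (abs_nonneg _) ?_ hp0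
    rw [vv, tr, if_neg (by omega), zero_add]
    refine (abs_sum_le_sum_abs _ _).trans ?_
    have e1 : ∑ j ∈ range (n' + 1), (i + j + 2 : ℝ)⁻¹ * |tr L α (n' - j)| =
        ∑ k ∈ range (n' + 1), sm L (n' + i) k * |tr L α k| := by
      rw [← sum_range_reflect (fun k => sm L (n' + i) k * |tr L α k|)]
      refine sum_congr rfl fun j hj => ?_
      have := mem_range.1 hj
      rw [Nat.add_sub_cancel, sm, if_pos (by omega), show n' + i - (n' - j) = i + j by omega]
      push_cast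
      rfl
    rw [e1]
    refine (sum_le_sum (g := fun k => if k < n' + 1 then sm L (n' + i) k * |tr L α k| else 0)
      fun k hk => ?_).trans ?_
    · have := mem_range.1 hk
      rw [abs_mul, abs_of_pos (sm_pos ..), tr, tr, if_pos this]
      split_ifs with h3 h4 h4
      · rfl
      · omega
      · have := sm_pos L (n' + i) k
        simp only [abs_zero, mul_zero]
        positivity
      · simp
    · rw [← sum_filter]
      exact sum_le_sum_of_subset_of_nonneg (fun k hk => mem_range.2 (mem_filter.1 hk).2)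
        fun k _ _ => mul_nonneg (sm_pos ..).le (abs_nonneg _)
  have c1 : S p L (vv L (tr n α) (tr n' β)) ≤ ∑ l ∈ range L, 2 ^ p * (|vv L α β l| ^ p +
      (∑ j ∈ range L, (l + j + 2 : ℝ)⁻¹ * |α (L - 1 - j)|) ^ p) +
      ∑ i ∈ range L, |vv L (tr n α) (tr n' β) (n' + i)| ^ p := by
    refine (sum_le_sum (g := fun l => 2 ^ p * (|vv L α β l| ^ p +
      (∑ j ∈ range L, (l + j + 2 : ℝ)⁻¹ * |α (L - 1 - j)|) ^ p) +
      if l < n' then 0 else |vv L (tr n α) (tr n' β) l| ^ p) fun l _ => ?_).trans ?_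
    · split_ifs with h3
      · exact (b1 l h3).trans_eq (add_zero _).symm
      · exact le_add_of_nonneg_left (by positivity)
    · rw [sum_add_distrib]
      refine add_le_add_right ((sum_le_sum_of_subset_of_nonneg (range_mono (Nat.le_add_left L n'))
        fun _ _ _ => by split_ifs <;> positivity).trans_eq ?_) _
      rw [sum_range_add, sum_eq_zero fun i hi => if_pos (mem_range.1 hi), zero_add]
      simp
  rw [← mul_sum, sum_add_distrib] at c1
  have c2 := (sum_le_sum fun i (_ : i ∈ range L) => b2 i).trans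
    (a2.trans (mul_le_mul_of_nonneg_left a3 hC))
  have c3 := mul_le_mul_of_nonneg_left a1 (show (0 : ℝ) ≤ 2 ^ p by positivity)
  have c4 := S_nonneg (p := p) L α
  have c5 := S_nonneg (p := p) L (vv L α β)
  have c6 : (0 : ℝ) ≤ 2 ^ p := by positivity
  unfold S at *
  nlinarith [mul_nonneg c6 c4, mul_nonneg hC c5, mul_nonneg c6 (mul_nonneg hC c5)]

lemma mean_le (hp : 1 < p) {L : ℕ} (hL : 0 < L) (u : ℕ → ℝ) :
    L * |(L : ℝ)⁻¹ * ∑ k ∈ range L, u k| ^ p ≤ S p L u := by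
  have h0 : (0 : ℝ) < L := by exact_mod_cast hL
  have h1 := rpow_arith_mean_le_arith_mean_rpow (range L) (fun _ => (L : ℝ)⁻¹) (fun k => |u k|)
    (fun _ _ => by positivity) (by simp [h0.ne']) (fun _ _ => abs_nonneg _) hp.le
  rw [← mul_sum, ← mul_sum, le_inv_mul_iff₀ h0] at h1
  refine le_trans (mul_le_mul_of_nonneg_left (rpow_le_rpow (abs_nonneg _) ?_ (by linarith))
    h0.le) h1
  rw [abs_mul, abs_of_pos (inv_pos.2 h0)]
  exact mul_le_mul_of_nonneg_left (abs_sum_le_sum_abs _ _) (by positivity)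

lemma tangent (hp : 1 < p) (c y : ℝ) : |c| ^ p + p * |c| ^ p / c * y ≤ |c + y| ^ p := by
  rcases eq_or_ne c 0 with rfl | hc
  · simp [show p ≠ 0 by linarith]
    positivity
  have h1 : 1 + p * (y / c) ≤ |1 + y / c| ^ p := by
    rcases le_total (-1) (y / c) with h | h
    · rw [abs_of_nonneg (by linarith)]
      exact one_add_mul_self_le_rpow_one_add h hp.le
    · exact le_trans (by nlinarith) (rpow_nonneg (abs_nonneg _) _)
  rw [show c + y = c * (1 + y / c) by field_simp, abs_mul, mul_rpow (abs_nonneg _) (abs_nonneg _)]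
  exact le_of_eq_of_le (by ring) (mul_le_mul_of_nonneg_left h1 (rpow_nonneg (abs_nonneg c) p))

lemma root_le (hp : 1 < p) {a b C : ℝ} (hb : 0 ≤ b) (hC : 0 ≤ C) (h : a ^ p ≤ C * b ^ p) :
    a ≤ C ^ p⁻¹ * b := by
  rcases le_total a 0 with h0 | h0
  · exact h0.trans (by positivity)
  rw [← rpow_le_rpow_iff h0 (by positivity) (show 0 < p by linarith),
    mul_rpow (by positivity) hb, rpow_inv_rpow hC (by linarith)]
  exact h

/-- abstract gluing of blocks -/
theorem glue {X : Type} [SeminormedAddCommGroup X] {C : ℝ} (hC : 0 ≤ C)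
    (Z R : (ℕ → ℝ) → ℕ → X) (Z0 : (ℕ → ℝ) → X) (c : ℕ → ℕ) (hc : Monotone c)
    (h0 : ∀ a m, ‖Z0 (tr m a)‖ ≤ ‖Z0 a‖) (h0' : ∀ a m, c 0 ≤ m → Z0 (tr m a) = Z0 a)
    (h1 : ∀ a T, ‖Z0 a + ∑ t ∈ range T, Z a t‖ ≤ ‖Z0 a + ∑ t ∈ range (T + 1), Z a t‖)
    (h2 : ∀ a m t, ‖Z (tr m a) t‖ ≤ C * ‖Z a t‖) (h3 : ∀ a m t, m ≤ c t → Z (tr m a) t = 0)
    (h4 : ∀ a m t, c (t + 1) ≤ m → Z (tr m a) t = Z a t)
    (h5 : ∀ a t, ‖R a t‖ ≤ (1 / 2) ^ (t + 3) * ‖Z a t‖) (a : ℕ → ℝ) (m T : ℕ) :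
    ‖Z0 (tr m a) + ∑ t ∈ range T, (Z (tr m a) t + R (tr m a) t)‖ ≤
      3 * (1 + 2 * C) * ‖Z0 a + ∑ t ∈ range T, (Z a t + R a t)‖ := by
  have a1 : ∀ a, Monotone fun T => ‖Z0 a + ∑ t ∈ range T, Z a t‖ := fun a =>
    monotone_nat_of_le_succ (h1 a)
  have a2 : ∀ a t T, t < T → ‖Z a t‖ ≤ 2 * ‖Z0 a + ∑ t ∈ range T, Z a t‖ := fun a t T h => by
    have := norm_sub_le_of_le (a1 a (Nat.succ_le_of_lt h)) (a1 a h.le)
    simp only [sum_range_succ, ← add_assoc, add_sub_cancel_left] at this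
    linarith
  have a3 : ∀ a, ‖∑ t ∈ range T, R a t‖ ≤ 1 / 2 * ‖Z0 a + ∑ t ∈ range T, Z a t‖ := fun a => by
    refine (norm_sum_le_of_le _ fun t ht => (h5 a t).trans (mul_le_mul_of_nonneg_left
      (a2 a t T (mem_range.1 ht)) (by positivity))).trans ?_
    have := sum_geometric_two_le T
    simp only [pow_add, ← sum_mul]
    nlinarith [norm_nonneg (Z0 a + ∑ t ∈ range T, Z a t)]
  have a4 : ∀ T, ‖Z0 (tr m a) + ∑ t ∈ range T, Z (tr m a) t‖ ≤
      (1 + 2 * C) * ‖Z0 a + ∑ t ∈ range T, Z a t‖ := fun T => by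
    induction T with
    | zero =>
      simp only [range_zero, sum_empty, add_zero]
      exact (h0 a m).trans (le_mul_of_one_le_left (norm_nonneg _) (by linarith))
    | succ T ih =>
      rw [sum_range_succ]
      rcases le_total m (c T) with h | h
      · rw [h3 a m T h, add_zero]
        exact ih.trans (mul_le_mul_of_nonneg_left (h1 a T) (by linarith))
      · rw [h0' a m ((hc T.zero_le).trans h), sum_congr rfl fun t ht =>
          h4 a m t ((hc (Nat.succ_le_of_lt (mem_range.1 ht))).trans h), ← add_assoc]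
        have := norm_add_le_of_le (h1 a T) ((h2 a m T).trans
          (mul_le_mul_of_nonneg_left (a2 a T _ T.lt_succ_self) hC))
        linarith
  simp only [sum_add_distrib, ← add_assoc]
  have b1 := norm_add_le_of_le (a4 T) ((a3 (tr m a)).trans
    (mul_le_mul_of_nonneg_left (a4 T) (by norm_num)))
  have b2 := norm_sub_le (Z0 a + ∑ t ∈ range T, Z a t + ∑ t ∈ range T, R a t)
    (∑ t ∈ range T, R a t)
  rw [add_sub_cancel_right] at b2
  have b3 := a3 a
  nlinarith

end Pool.Agent.H.MP_ada34c_an
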