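import Pool.Agent.H.MP_ada34c_an.B

namespace Pool.Agent.H.MP_ada34c_an

open Finset Real Filter Topology

lemma exL (t : ℕ) : ∃ L : ℕ, (2 : ℝ) ^ (t + 4) ≤ ∑ m ∈ range L, (m + 2 : ℝ)⁻¹ := by
  obtain ⟨L, hL⟩ := (tendsto_sum_range_one_div_nat_succ_atTop.comp (tendsto_add_atTop_nat 1)
    |>.eventually_ge_atTop (2 ^ (t + 4) + 1)).exists
  refine ⟨L, ?_⟩
  simp only [Function.comp, sum_range_succ', Nat.cast_add, Nat.cast_one, add_assoc,
    one_add_one_eq_two, one_div] at hL
  simpa using hL

/-- block sizes -/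
noncomputable def LL (t : ℕ) : ℕ := (exL t).choose

lemma LL_pos (t : ℕ) : 0 < LL t := Nat.pos_of_ne_zero fun h => by
  have := (exL t).choose_spec
  rw [show (exL t).choose = 0 from h, sum_range_zero] at this
  exact this.not_gt (by positivity)

/-- cumulative sizes -/
noncomputable def q (t : ℕ) : ℕ := ∑ s ∈ range t, LL s

lemma q_succ (t : ℕ) : q (t + 1) = q t + LL t := sum_range_succ _ _

lemma q_mono : StrictMono q := strictMono_nat_of_lt_succ fun t => by
  rw [q_succ]; linarith [LL_pos t]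

/-- the label split at time `t` -/
def lab (t : ℕ) : ℕ := t.unpair.1

lemma lab_le (t : ℕ) : lab t ≤ q t := t.unpair_left_le.trans (q_mono.id_le t)

/-- integers -/
noncomputable def ze (n : ℕ) : ℤ := (Denumerable.eqv ℤ).symm n

/-- cut points -/
noncomputable def gg (x : ℝ × ℝ) (L j : ℕ) : ℝ :=
  if j = 0 then x.1 else x.1 + (x.2 - x.1) / (2 * L) * (L + j - 1)

/-- labels changed at time `t` -/
def mem (t n : ℕ) : Prop := n = lab t ∨ (n % 2 = 1 ∧ q t ≤ n / 2 ∧ n / 2 < q (t + 1))

/-- position of a changed label -/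
noncomputable def ix (t n : ℕ) : ℕ := if n = lab t then 0 else n / 2 - q t + 1

open Classical in
/-- the atoms -/
noncomputable def st : ℕ → ℕ → ℝ × ℝ
  | 0, n => if n % 2 = 0 then (ze (n / 2), ze (n / 2) + 1) else (0, 0)
  | t + 1, n => if mem t n then (gg (st t (lab t)) (LL t) (ix t n),
      gg (st t (lab t)) (LL t) (ix t n + 1)) else st t n

/-- cut points at time `t` -/
noncomputable def g (t : ℕ) : ℕ → ℝ := gg (st t (lab t)) (LL t)

/-- the length of the small pieces -/
noncomputable def la (t : ℕ) : ℝ := ((st t (lab t)).2 - (st t (lab t)).1) / (2 * LL t)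

lemma st_mem {t n : ℕ} (h : mem t n) : st (t + 1) n = (g t (ix t n), g t (ix t n + 1)) := by
  rw [st, if_pos h, g]

lemma st_not {t n : ℕ} (h : ¬ mem t n) : st (t + 1) n = st t n := by rw [st, if_neg h]

lemma st_new {t n : ℕ} (h : 2 * q t < n) : st t n = st 0 n := by
  induction t with
  | zero => rfl
  | succ t ih =>
    have := lab_le t
    have := q_succ t
    rw [st_not (by unfold mem; omega), ih (by omega)]

lemma g_zero (t : ℕ) : g t 0 = (st t (lab t)).1 := by rw [g, gg, if_pos rfl]

lemma g_succ (t j : ℕ) : g t (j + 1) = (st t (lab t)).1 + la t * (LL t + j) := by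
  rw [g, gg, if_neg j.succ_ne_zero, la]
  push_cast
  ring

lemma la_mul (t : ℕ) : (st t (lab t)).2 - (st t (lab t)).1 = la t * (2 * LL t) := by
  have : (0 : ℝ) < LL t := by exact_mod_cast LL_pos t
  rw [la, div_mul_cancel₀ _ (by positivity)]

lemma g_last (t : ℕ) : g t (LL t + 1) = (st t (lab t)).2 := by
  rw [g_succ]; linarith [la_mul t]

lemma g_diff (t j : ℕ) : g t (j + 1) - g t j = if j = 0 then la t * LL t else la t := by
  cases j with
  | zero => simp [g_succ, g_zero]
  | succ j => simp [g_succ]; ring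

lemma st_lt {t n : ℕ} (h : n ≤ 2 * q t) : (st t n).1 < (st t n).2 := by
  induction t generalizing n with
  | zero => simp [q] at h; simp [h, st]
  | succ t ih =>
    have h0 : (0 : ℝ) < LL t := by exact_mod_cast LL_pos t
    have h1 : 0 < la t := div_pos (sub_pos.2 (ih (by linarith [lab_le t]))) (by positivity)
    by_cases h2 : mem t n
    · rw [st_mem h2, ← sub_pos, g_diff]
      split_ifs <;> positivity
    · rw [st_not h2]
      rcases le_or_gt n (2 * q t) with h3 | h3
      · exact ih h3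
      · rw [st_new h3, st, if_pos (by unfold mem at h2; omega)]
        simp

lemma la_pos (t : ℕ) : 0 < la t := by
  have h0 : (0 : ℝ) < LL t := by exact_mod_cast LL_pos t
  exact div_pos (sub_pos.2 (st_lt (by linarith [lab_le t]))) (by positivity)

lemma g_mono (t : ℕ) : Monotone (g t) := monotone_nat_of_le_succ fun j => by
  have := la_pos t
  rw [← sub_nonneg, g_diff]
  split_ifs <;> positivity

/-- the atoms as sets -/
def A (t n : ℕ) : Set ℝ := Set.Ico (st t n).1 (st t n).2

lemma A_sub {t n : ℕ} (h : mem t n) : A (t + 1) n ⊆ A t (lab t) := by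
  rw [A, A, st_mem h, ← g_zero, ← g_last]
  refine Set.Ico_subset_Ico (g_mono t (Nat.zero_le (ix t n)))
    (g_mono t (a := ix t n + 1) ?_)
  have := q_succ t
  unfold ix
  unfold mem at h
  split_ifs <;> omega

lemma A_not {t n : ℕ} (h : ¬ mem t n) : A (t + 1) n = A t n := by rw [A, A, st_not h]

lemma A_disj (t : ℕ) : Pairwise fun m n => Disjoint (A t m) (A t n) := by
  induction t with
  | zero =>
    intro m n h
    simp only [A, st]
    split_ifs with h1 h2
    · have h3 : ze (m / 2) ≠ ze (n / 2) := (Denumerable.eqv ℤ).symm.injective.ne (by omega)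
      exact Set.pairwise_disjoint_Ico_intCast ℝ h3
    all_goals simp
  | succ t ih =>
    intro m n h
    by_cases h1 : mem t m <;> by_cases h2 : mem t n
    · rw [A, A, st_mem h1, st_mem h2]
      refine (g_mono t).pairwise_disjoint_on_Ico_succ (i := ix t m) (j := ix t n) ?_
      unfold ix
      unfold mem at h1 h2
      split_ifs <;> omega
    · rw [A_not h2]
      exact (ih fun h3 => h2 (Or.inl h3.symm)).mono_left (A_sub h1)
    · rw [A_not h1]
      exact (ih fun h3 => h1 (Or.inl h3)).mono_right (A_sub h2)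
    · rw [A_not h1, A_not h2]
      exact ih h

lemma mem_piece {t k : ℕ} (h : k < LL t) :
    mem t (2 * (q t + k) + 1) ∧ ix t (2 * (q t + k) + 1) = k + 1 := by
  have := lab_le t
  have := q_succ t
  unfold mem ix
  split_ifs <;> omega

lemma st_lab (t : ℕ) : st (t + 1) (lab t) = (g t 0, g t 1) := by
  rw [st_mem (Or.inl rfl), ix, if_pos rfl]

lemma st_piece {t k : ℕ} (h : k < LL t) :
    st (t + 1) (2 * (q t + k) + 1) = (g t (k + 1), g t (k + 2)) := by
  rw [st_mem (mem_piece h).1, (mem_piece h).2]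

lemma st_unit (t k : ℕ) : st (t + 1) (2 * (q t + k) + 2) = st t (2 * (q t + k) + 2) ∧
    st t (2 * (q t + k) + 2) = ((ze (q t + k + 1) : ℝ), (ze (q t + k + 1) : ℝ) + 1) := by
  have := lab_le t
  refine ⟨st_not (by unfold mem; omega), ?_⟩
  rw [st_new (by omega), st, if_pos (by omega), show (2 * (q t + k) + 2) / 2 = q t + k + 1 by omega]

lemma exists_ix {t j : ℕ} (h : j ≤ LL t) :
    ∃ n, n ≤ 2 * q (t + 1) ∧ st (t + 1) n = (g t j, g t (j + 1)) := by
  have := lab_le t
  have := q_succ t
  cases j with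
  | zero => exact ⟨_, by omega, st_lab t⟩
  | succ j => exact ⟨_, by omega, st_piece h⟩

lemma split {t : ℕ} {x : ℝ} (h : x ∈ A t (lab t)) : ∃ n, x ∈ A (t + 1) n ∧
    (st (t + 1) n).2 - (st (t + 1) n).1 ≤ ((st t (lab t)).2 - (st t (lab t)).1) / 2 := by
  have h1 : ∀ N, x < g t N → ∃ j < N, x ∈ Set.Ico (g t j) (g t (j + 1)) := fun N => by
    induction N with
    | zero => exact fun h1 => absurd h.1 (by rw [← g_zero]; exact h1.not_ge)
    | succ N ih =>
      intro h1
      rcases lt_or_ge x (g t N) with h2 | h2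
      · obtain ⟨j, h3, h4⟩ := ih h2
        exact ⟨j, by omega, h4⟩
      · exact ⟨N, by omega, h2, h1⟩
  obtain ⟨j, h2, h3⟩ := h1 _ (g_last t ▸ h.2)
  obtain ⟨n, -, h4⟩ := exists_ix (Nat.lt_succ_iff.1 h2)
  refine ⟨n, by rwa [A, h4], ?_⟩
  have h5 : (1 : ℝ) ≤ LL t := by exact_mod_cast LL_pos t
  have := la_pos t
  rw [h4, g_diff, la_mul]
  split_ifs <;> nlinarith

lemma shrink (x : ℝ) (r : ℕ) :
    ∃ t n, x ∈ A t n ∧ (st t n).2 - (st t n).1 ≤ (1 / 2) ^ r := by
  induction r with
  | zero =>
    refine ⟨0, 2 * Denumerable.eqv ℤ ⌊x⌋, ?_⟩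
    simp [A, st, ze, Int.floor_le]
  | succ r ih =>
    obtain ⟨t, n, h1, h2⟩ := ih
    by_contra h
    push Not at h
    have h3 : ∀ s, st (t + s) n = st t n ∧ lab (t + s) ≠ n := fun s => by
      have h4 : ∀ s, st (t + s) n = st t n → lab (t + s) ≠ n := fun s h4 h5 => by
        obtain ⟨m, h6, h7⟩ := split (t := t + s) (x := x) (by rwa [A, h5, h4])
        have := h _ _ h6
        rw [h5, h4] at h7
        rw [pow_succ] at this
        linarith
      induction s with
      | zero => exact ⟨rfl, h4 0 rfl⟩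
      | succ s ih =>
        have h5 : st (t + (s + 1)) n = st t n := by
          rw [← add_assoc, st_not, ih.1]
          rintro (h5 | h5)
          · exact ih.2 h5.symm
          · have h6 := ih.1
            rw [st_new (by omega), st, if_neg (by omega)] at h6
            rw [A, ← h6] at h1
            simp at h1
        exact ⟨h5, h4 _ h5⟩
    obtain ⟨s, hs⟩ := Nat.exists_eq_add_of_le (Nat.right_le_pair n t)
    exact (h3 s).2 (by rw [← hs, lab, Nat.unpair_pair])

lemma exb (m : ℕ) : ∃ t, m < q (t + 1) := ⟨m, q_mono.id_le (m + 1)⟩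

/-- the block of a pair index -/
noncomputable def blk (m : ℕ) : ℕ := Nat.find (exb m)

lemma blk_eq {t k : ℕ} (h : k < LL t) : blk (q t + k) = t :=
  (Nat.find_eq_iff _).2 ⟨by rw [q_succ]; omega, fun s hs =>
    not_lt.2 ((q_mono.monotone (Nat.succ_le_of_lt hs)).trans (Nat.le_add_right _ _))⟩

lemma exists_blk (m : ℕ) : ∃ t k, k < LL t ∧ m = q t + k := by
  have h1 := Nat.find_spec (exb m)
  have h2 : q (blk m) ≤ m := by
    rcases h : blk m with _ | t
    · simp [q]
    · exact not_lt.1 (Nat.find_min (exb m) (m := t) (by rw [blk] at h; omega))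
  rw [q_succ] at h1
  exact ⟨blk m, m - q (blk m), by unfold blk at *; omega, by omega⟩

end Pool.Agent.H.MP_ada34c_an
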