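import Pool.Agent.H.MP_ada34c_an.C

namespace Pool.Agent.H.MP_ada34c_an

open Finset Real Filter Topology MeasureTheory
open scoped ENNReal

variable (P : ℝ≥0∞)

/-- indicators of atoms -/
noncomputable def ia (t n : ℕ) : M P := ind P (st t n).1 (st t n).2

/-- mean zero vectors -/
noncomputable def wv (t k : ℕ) : M P :=
  ia P (t + 1) (2 * (q t + k) + 1) - (LL t : ℝ)⁻¹ • ia P (t + 1) (lab t)

/-- scaled new intervals -/
noncomputable def jv (t l : ℕ) : M P := la t ^ P.toReal⁻¹ • ia P (t + 1) (2 * (q t + l) + 2)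

/-- size of the perturbation -/
noncomputable def bb (t : ℕ) : ℝ := (2 ^ (t + 4))⁻¹ * (LL t : ℝ)⁻¹

/-- first kind of basis vectors -/
noncomputable def fx (t k : ℕ) : M P := wv P t k + ∑ l ∈ range (LL t), sm (LL t) l k • jv P t l +
  (bb t * ∑ l ∈ range (LL t), sm (LL t) l k) • ia P t (lab t)

/-- second kind of basis vectors -/
noncomputable def fy (t l : ℕ) : M P := jv P t l + bb t • ia P t (lab t)

/-- the basis -/
noncomputable def F (n : ℕ) : M P := if n = 0 then ia P 0 0 else if n % 2 = 1 then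
  fx P (blk (n / 2)) (n / 2 - q (blk (n / 2)))
  else fy P (blk (n / 2 - 1)) (n / 2 - 1 - q (blk (n / 2 - 1)))

/-- unperturbed block -/
noncomputable def ZZ (t : ℕ) (α β : ℕ → ℝ) : M P := ∑ k ∈ range (LL t), α k • wv P t k +
  ∑ l ∈ range (LL t), vv (LL t) α β l • jv P t l

/-- perturbation of a block -/
noncomputable def RR (t : ℕ) (α β : ℕ → ℝ) : M P :=
  (bb t * ∑ l ∈ range (LL t), vv (LL t) α β l) • ia P t (lab t)

/-- functions constant on atoms -/
def Cst (t : ℕ) : Submodule ℝ (M P) where
  carrier := {f | ∀ n, ∃ c, (2 * q t < n → c = 0) ∧ ∀ x ∈ A t n, f.1 x = c}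
  add_mem' h h' n := by
    obtain ⟨c, h1, h2⟩ := h n
    obtain ⟨c', h3, h4⟩ := h' n
    exact ⟨c + c', fun h => by simp [h1 h, h3 h], fun x hx => by simp [h2 x hx, h4 x hx]⟩
  zero_mem' _ := ⟨0, fun _ => rfl, fun _ _ => rfl⟩
  smul_mem' r _ h n := by
    obtain ⟨c, h1, h2⟩ := h n
    exact ⟨r * c, fun h => by simp [h1 h], fun x hx => by simp [h2 x hx]⟩

variable {P}

lemma ia_apply (t n : ℕ) (x : ℝ) [Decidable (x ∈ A t n)] :
    (ia P t n).1 x = if x ∈ A t n then 1 else 0 := by
  rw [ia, ind_apply]
  congr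

lemma F_x {t k : ℕ} (h : k < LL t) : F P (2 * (q t + k) + 1) = fx P t k := by
  rw [F, if_neg (by omega), if_pos (by omega), show (2 * (q t + k) + 1) / 2 = q t + k by omega,
    blk_eq h, Nat.add_sub_cancel_left]

lemma F_y {t k : ℕ} (h : k < LL t) : F P (2 * (q t + k) + 2) = fy P t k := by
  rw [F, if_neg (by omega), if_neg (by omega), show (2 * (q t + k) + 2) / 2 - 1 = q t + k by omega,
    blk_eq h, Nat.add_sub_cancel_left]

lemma blk_sum (t : ℕ) (α β : ℕ → ℝ) :
    ∑ k ∈ range (LL t), (α k • fx P t k + β k • fy P t k) = ZZ P t α β + RR P t α β := by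
  simp only [fx, fy, ZZ, RR, vv, smul_add, sum_add_distrib, add_smul, mul_add, smul_sum, smul_smul,
    sum_smul, mul_sum]
  rw [sum_comm (f := fun k l => (α k * sm (LL t) l k) • jv P t l),
    sum_comm (f := fun k l => (α k * (bb t * sm (LL t) l k)) • ia P t (lab t))]
  simp only [mul_comm (α _), mul_comm (β _), mul_assoc]
  abel

/-- first coefficients -/
noncomputable def al (a : ℕ → ℝ) (t k : ℕ) : ℝ := a (2 * (q t + k) + 1)

/-- second coefficients -/
noncomputable def be (a : ℕ → ℝ) (t k : ℕ) : ℝ := a (2 * (q t + k) + 2)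

lemma sum_F (a : ℕ → ℝ) (N : ℕ) : ∑ n ∈ range (2 * q N + 1), a n • F P n = a 0 • ia P 0 0 +
    ∑ t ∈ range N, (ZZ P t (al a t) (be a t) + RR P t (al a t) (be a t)) := by
  have h1 : ∀ m, ∑ n ∈ range (2 * m + 1), a n • F P n = a 0 • F P 0 + ∑ i ∈ range m,
      (a (2 * i + 1) • F P (2 * i + 1) + a (2 * i + 2) • F P (2 * i + 2)) := fun m => by
    induction m with
    | zero => simp
    | succ m ih =>
      rw [mul_add_one, sum_range_succ, sum_range_succ, ih, sum_range_succ]
      abel
  rw [h1, F, if_pos rfl]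
  congr 1
  induction N with
  | zero => simp [q]
  | succ N ih =>
    rw [q_succ, sum_range_add, ih, sum_range_succ, ← blk_sum]
    congr 1
    exact sum_congr rfl fun k hk => by rw [F_x (mem_range.1 hk), F_y (mem_range.1 hk), al, be]

lemma ia_cst {t n : ℕ} (h : n ≤ 2 * q t) : ia P t n ∈ Cst P t := fun m => by
  classical
  rcases eq_or_ne m n with rfl | h1
  · exact ⟨1, fun h1 => absurd h h1.not_ge, fun x hx => by rw [ia_apply, if_pos hx]⟩
  · exact ⟨0, fun _ => rfl, fun x hx => by
      rw [ia_apply, if_neg (Set.disjoint_left.1 (A_disj t h1) hx)]⟩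

lemma cst_succ {t : ℕ} {f : M P} (h : f ∈ Cst P t) : f ∈ Cst P (t + 1) := fun n => by
  have := q_succ t
  have := lab_le t
  by_cases h1 : mem t n
  · obtain ⟨c, -, h2⟩ := h (lab t)
    exact ⟨c, fun h3 => by unfold mem at h1; omega, fun x hx => h2 x (A_sub h1 hx)⟩
  · obtain ⟨c, h2, h3⟩ := h n
    exact ⟨c, fun h4 => h2 (by omega), A_not h1 ▸ h3⟩

lemma tot_cst (a : ℕ → ℝ) (N : ℕ) :
    a 0 • ia P 0 0 + ∑ t ∈ range N, ZZ P t (al a t) (be a t) ∈ Cst P N := by
  induction N with
  | zero => simpa using (Cst P 0).smul_mem _ (ia_cst (Nat.zero_le _))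
  | succ N ih =>
    have := q_succ N
    have := lab_le N
    rw [sum_range_succ, ← add_assoc]
    refine add_mem (cst_succ ih) (add_mem (sum_mem fun k hk => Submodule.smul_mem _ _ (sub_mem
      (ia_cst ?_) (Submodule.smul_mem _ _ (ia_cst (by omega))))) (sum_mem fun k hk =>
        Submodule.smul_mem _ _ (Submodule.smul_mem _ _ (ia_cst ?_)))) <;>
      have := mem_range.1 hk <;> omega

lemma span_ia {t n : ℕ} (h : n ≤ 2 * q t) : ia P t n ∈ Submodule.span ℝ (Set.range (F P)) := by
  induction t generalizing n with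
  | zero =>
    simp only [q, range_zero, sum_empty, mul_zero, nonpos_iff_eq_zero] at h
    exact Submodule.subset_span ⟨0, by rw [h, F, if_pos rfl]⟩
  | succ t ih =>
    have a1 := q_succ t
    have a2 := lab_le t
    have a3 : (LL t : ℝ) ≠ 0 := by exact_mod_cast (LL_pos t).ne'
    have h1 := ih (n := lab t) (by omega)
    have h2 : ∀ l < LL t, jv P t l ∈ Submodule.span ℝ (Set.range (F P)) := fun l hl => by
      rw [eq_sub_of_add_eq (show jv P t l + _ = fy P t l from rfl)]
      exact sub_mem (Submodule.subset_span ⟨_, F_y hl⟩) (Submodule.smul_mem _ _ h1)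
    have h3 : ∀ k < LL t, wv P t k ∈ Submodule.span ℝ (Set.range (F P)) := fun k hk => by
      rw [eq_sub_of_add_eq (eq_sub_of_add_eq (show wv P t k + _ + _ = fx P t k from rfl))]
      exact sub_mem (sub_mem (Submodule.subset_span ⟨_, F_x hk⟩) (Submodule.smul_mem _ _ h1))
        (sum_mem fun l hl => Submodule.smul_mem _ _ (h2 l (mem_range.1 hl)))
    have h4 : ∀ N ≤ LL t, ia P (t + 1) (lab t) + ∑ k ∈ range N,
        ia P (t + 1) (2 * (q t + k) + 1) = ind P (g t 0) (g t (N + 1)) := fun N hN => by
      induction N with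
      | zero => simp [ia, st_lab]
      | succ N ih =>
        rw [sum_range_succ, ← add_assoc, ih (by omega), ia, st_piece hN,
          ind_add (g_mono t (by omega)) (g_mono t (by omega))]
    have h5 : ia P (t + 1) (lab t) ∈ Submodule.span ℝ (Set.range (F P)) := by
      have h6 := h4 _ le_rfl
      rw [g_zero, g_last] at h6
      have h7 := sub_mem h1 (sum_mem fun k (hk : k ∈ range (LL t)) => h3 k (mem_range.1 hk))
      rw [ia, ← h6] at h7
      simp only [wv, sum_sub_distrib, sum_const, card_range, ← Nat.cast_smul_eq_nsmul ℝ,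
        smul_smul, mul_inv_cancel₀ a3, one_smul] at h7
      convert Submodule.smul_mem _ (1 / 2 : ℝ) h7
      module
    by_cases h6 : mem t n
    · rcases h6 with rfl | h6
      · exact h5
      · rw [show n = 2 * (q t + (n / 2 - q t)) + 1 by omega,
          eq_add_of_sub_eq (show _ - _ = wv P t (n / 2 - q t) from rfl)]
        exact add_mem (h3 _ (by omega)) (Submodule.smul_mem _ _ h5)
    · rcases le_or_gt n (2 * q t) with h7 | h7
      · rw [ia, st_not h6]
        exact ih h7
      · unfold mem at h6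
        rw [show n = 2 * (q t + (n / 2 - 1 - q t)) + 2 by omega]
        exact (Submodule.smul_mem_iff _ (rpow_pos_of_pos (la_pos t) _).ne').1 (h2 _ (by omega))

lemma span_gm (t n : ℕ) : gm P (st t n).1 ∈ Submodule.span ℝ (Set.range (F P)) := by
  have h0 : gm P 0 = 0 := sub_self _
  induction t generalizing n with
  | zero =>
    have h1 : ∀ z : ℤ, ind P z (z + 1) ∈ Submodule.span ℝ (Set.range (F P)) := fun z => by
      obtain ⟨m, rfl⟩ : ∃ m, ze m = z := (Denumerable.eqv ℤ).symm.surjective z
      cases m with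
      | zero => simpa [ia, st] using span_ia (P := P) (t := 0) (Nat.zero_le _)
      | succ m =>
        obtain ⟨t, k, hk, rfl⟩ := exists_blk m
        have := span_ia (P := P) (t := t + 1) (n := 2 * (q t + k) + 2) (by rw [q_succ]; omega)
        rwa [ia, (st_unit t k).1, (st_unit t k).2] at this
    have h2 : ∀ z : ℤ, gm P z ∈ Submodule.span ℝ (Set.range (F P)) := fun z => by
      induction z with
      | zero => rw [Int.cast_zero, h0]; exact zero_mem _
      | succ z ih =>
        rw [Int.cast_add, Int.cast_one, ← gm_add (le_add_of_nonneg_right zero_le_one)]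
        exact add_mem ih (h1 z)
      | pred z ih =>
        have h3 := gm_add (P := P) (le_add_of_nonneg_right (a := ((-z - 1 : ℤ) : ℝ)) zero_le_one)
        rw [eq_sub_iff_add_eq.2 h3]
        refine sub_mem ?_ (h1 _)
        rwa [Int.cast_sub, Int.cast_one, sub_add_cancel]
    rw [st]
    split_ifs
    · exact h2 _
    · rw [h0]; exact zero_mem _
  | succ t ih =>
    by_cases h : mem t n
    · have h1 : ∀ j ≤ LL t, gm P (g t j) ∈ Submodule.span ℝ (Set.range (F P)) := fun j hj => by
        induction j with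
        | zero => exact g_zero t ▸ ih _
        | succ j ih' =>
          obtain ⟨m, h2, h3⟩ := exists_ix (t := t) (j := j) (by omega)
          have := span_ia (P := P) h2
          rw [ia, h3] at this
          rw [← gm_add (g_mono t j.le_succ)]
          exact add_mem (ih' (by omega)) this
      rw [st_mem h]
      refine h1 _ ?_
      have := q_succ t
      unfold ix
      unfold mem at h
      split_ifs <;> omega
    · rw [st_not h]
      exact ih n

lemma F_ge (n : ℕ) : ∃ a b c : ℝ, 0 < c ∧ a < b ∧ ∀ x, c * (ind P a b).1 x ≤ (F P n).1 x := by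
  classical
  have h0 : ∀ t n x, 0 ≤ (ia P t n).1 x := fun t n x => by rw [ia_apply]; split_ifs <;> simp
  have h1 : ∀ t, 0 ≤ bb t := fun t => by unfold bb; positivity
  rcases Nat.eq_zero_or_pos n with rfl | hn
  · exact ⟨_, _, 1, one_pos, st_lt (t := 0) (Nat.zero_le _), fun x => by simp [F, ia]⟩
  obtain ⟨t, k, hk, h⟩ := exists_blk ((n - 1) / 2)
  have a1 := q_succ t
  have a2 := rpow_pos_of_pos (la_pos t) P.toReal⁻¹
  rcases (by omega : n = 2 * (q t + k) + 1 ∨ n = 2 * (q t + k) + 2) with rfl | rfl
  · refine ⟨_, _, 1, one_pos, st_lt (t := t + 1) (n := 2 * (q t + k) + 1) (by omega), fun x => ?_⟩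
    have h2 : (LL t : ℝ)⁻¹ * (ia P (t + 1) (lab t)).1 x ≤
        (bb t * ∑ l ∈ range (LL t), sm (LL t) l k) * (ia P t (lab t)).1 x := by
      refine mul_le_mul ?_ ?_ (h0 ..) (mul_nonneg (h1 t) (sum_nonneg fun _ _ => (sm_pos ..).le))
      · rw [sm_col hk, bb, mul_right_comm]
        exact le_mul_of_one_le_left (by positivity)
          ((one_le_inv_mul₀ (by positivity)).2 (exL t).choose_spec)
      · rw [ia_apply, ia_apply]
        split_ifs with h2 h3
        exacts [le_rfl, absurd (A_sub (Or.inl rfl) h2) h3, zero_le_one, le_rfl]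
    have h3 : 0 ≤ ∑ l ∈ range (LL t), sm (LL t) l k *
        (la t ^ P.toReal⁻¹ * (ia P (t + 1) (2 * (q t + l) + 2)).1 x) :=
      sum_nonneg fun _ _ => mul_nonneg (sm_pos ..).le (mul_nonneg a2.le (h0 ..))
    simp only [F_x hk, fx, wv, jv, Submodule.coe_add, Submodule.coe_sub, Submodule.coe_smul,
      Submodule.coe_sum, Pi.add_apply, Pi.sub_apply, Pi.smul_apply, Finset.sum_apply, smul_eq_mul]
    unfold ia at *
    linarith
  · refine ⟨_, _, _, a2, st_lt (t := t + 1) (n := 2 * (q t + k) + 2) (by omega), fun x => ?_⟩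
    simp only [F_y hk, fy, jv, Submodule.coe_add, Submodule.coe_smul, Pi.add_apply, Pi.smul_apply,
      smul_eq_mul]
    exact le_add_of_nonneg_right (mul_nonneg (h1 t) (h0 ..))

variable [Fact (1 ≤ P)] (hp : 1 < P.toReal)
include hp

lemma ZZ_norm (t : ℕ) (α β : ℕ → ℝ) : ‖T P (ZZ P t α β)‖ ^ P.toReal = la t * (S P.toReal (LL t) α +
    LL t * |(LL t : ℝ)⁻¹ * ∑ k ∈ range (LL t), α k| ^ P.toReal +
      S P.toReal (LL t) (vv (LL t) α β)) := by
  have a1 := q_succ t
  have a2 := lab_le t
  let lb : Option (Fin (LL t) ⊕ Fin (LL t)) → ℕ := fun i => i.elim (lab t)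
    (Sum.elim (fun k => 2 * (q t + k) + 1) fun k => 2 * (q t + k) + 2)
  have h1 := dsum hp (fun i => (st (t + 1) (lb i)).1) (fun i => (st (t + 1) (lb i)).2)
    (fun i => i.elim (-((LL t : ℝ)⁻¹ * ∑ k ∈ range (LL t), α k))
      (Sum.elim (fun k => α k) fun k => vv (LL t) α β k * la t ^ P.toReal⁻¹))
    (fun i => (st_lt (by rcases i with _ | k | k <;> simp only [lb, Option.elim, Sum.elim_inl,
      Sum.elim_inr] <;> omega)).le) fun i j hij => A_disj (t + 1) (by
        rcases i with _ | k | k <;> rcases j with _ | l | l <;>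
          simp only [lb, Option.elim, Sum.elim_inl, Sum.elim_inr, ne_eq, Option.some.injEq,
            Sum.inl.injEq, Sum.inr.injEq, Fin.ext_iff, not_true_eq_false] at hij ⊢ <;> omega)
  simp only [Fintype.sum_option, Fintype.sum_sum_type, lb, Option.elim, Sum.elim_inl,
    Sum.elim_inr] at h1
  have h2 : ∀ v : ℝ, |v * la t ^ P.toReal⁻¹| ^ P.toReal = |v| ^ P.toReal * la t := fun v => by
    rw [abs_mul, mul_rpow (abs_nonneg _) (abs_nonneg _), abs_of_pos (rpow_pos_of_pos (la_pos t) _),
      rpow_inv_rpow (la_pos t).le (show P.toReal ≠ 0 by linarith)]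
  convert h1 using 1
  · congr 3
    simp only [ZZ, wv, jv, ia, smul_sub, sum_sub_distrib, smul_smul, ← sum_smul, ← sum_mul,
      sum_range, mul_comm (LL t : ℝ)⁻¹]
    module
  · simp only [st_lab, fun k : Fin (LL t) => st_piece k.2, (st_unit t _).1, (st_unit t _).2,
      g_diff, show g t 1 - g t 0 = _ from g_diff t 0, add_sub_cancel_left, S, sum_range, abs_neg,
      h2, Nat.succ_ne_zero, if_false,
      if_true, mul_one, ← sum_mul]
    ring

theorem main : (∀ n, ∀ᵐ x, 0 ≤ T P (F P n) x) ∧ ∀ f : Lp ℝ P (volume : Measure ℝ),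
    ∃! a : ℕ → ℝ, Tendsto (fun N => ∑ n ∈ range N, a n • T P (F P n)) atTop (𝓝 f) := by
  classical
  obtain ⟨C, hC, h⟩ := hankel hp
  have hS := S_nonneg (p := P.toReal)
  refine ⟨fun n => ?_, grun _ (K := 3 * (1 + 2 * (2 + C) ^ P.toReal⁻¹)) (fun a m k hmk => ?_)
    (fun n => ?_) ?_⟩
  · obtain ⟨a, b, c, h1, -, h2⟩ := F_ge (P := P) n
    filter_upwards [MemLp.coeFn_toLp (F P n).2] with x hx
    refine le_of_le_of_eq (le_trans ?_ (h2 x)) hx.symm
    rw [ind_apply]
    split_ifs <;> simp [h1.le]
  · have h1 : ∀ (a : ℕ → ℝ) m, m ≤ k → ∑ n ∈ range m, a n • T P (F P n) = T P (tr m a 0 • ia P 0 0) +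
        ∑ t ∈ range k, (T P (ZZ P t (al (tr m a) t) (be (tr m a) t)) +
          T P (RR P t (al (tr m a) t) (be (tr m a) t))) := fun a m hm => by
      simp only [← map_add, ← map_sum, ← sum_F, ← map_smul]
      obtain ⟨r, hr⟩ := Nat.exists_eq_add_of_le (show m ≤ 2 * q k + 1 by
        have := q_mono.id_le k; simp only [id] at this; omega)
      rw [hr, sum_range_add, sum_eq_zero (s := range r) fun i _ => by simp [tr], add_zero]
      exact congrArg _ (sum_congr rfl fun i hi => by rw [tr, if_pos (mem_range.1 hi)])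
    have h2 : tr m a = tr m (tr k a) := funext fun i => by unfold tr; split_ifs <;> first | rfl | omega
    have h3 : ∀ a m t, al (tr m a) t = tr ((m - 2 * q t) / 2) (al a t) := fun a m t =>
      funext fun i => by unfold al tr; split_ifs <;> first | rfl | omega
    have h4 : ∀ a m t, be (tr m a) t = tr ((m - 2 * q t - 1) / 2) (be a t) := fun a m t =>
      funext fun i => by unfold be tr; split_ifs <;> first | rfl | omega
    rw [h1 a m hmk, h1 a k le_rfl, h2]
    refine glue (by positivity) (fun a t => T P (ZZ P t (al a t) (be a t)))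
      (fun a t => T P (RR P t (al a t) (be a t))) (fun a => T P (a 0 • ia P 0 0))
      (fun t => 2 * q t + 1) (fun s t h => by have := q_mono.monotone h; beta_reduce; omega)
      (fun a m => ?_) (fun a m h => by rw [tr, if_pos (by omega)]) (fun a N => ?_)
      (fun a m t => root_le hp (norm_nonneg _) (by positivity) ?_) (fun a m t h => ?_)
      (fun a m t h => ?_) (fun a t => ?_) _ m k
    · unfold tr
      split_ifs <;> simp
    · simp only [sum_range_succ, ← add_assoc, ← map_sum, ← map_add]
      obtain ⟨c, -, h5⟩ := tot_cst (P := P) a N (lab N)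
      have h6 : ∀ n, n ≤ 2 * q (N + 1) → Integrable (ia P (N + 1) n).1 ∧ ∫ x, (ia P (N + 1) n).1 x =
          (st (N + 1) n).2 - (st (N + 1) n).1 := fun n hn => by
        have := ind_int (P := P) (st_lt hn).le 1
        simp only [one_mul] at this
        exact this
      have a1 := q_succ N
      have a2 := lab_le N
      have a3 : (LL N : ℝ) ≠ 0 := by exact_mod_cast (LL_pos N).ne'
      have h7 : ∀ i ∈ range (LL N), Integrable (fun x => al a N i * (wv P N i).1 x) ∧
          ∫ x, al a N i * (wv P N i).1 x = 0 := fun i hi => by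
        have := mem_range.1 hi
        have h8 := h6 (2 * (q N + i) + 1) (by omega)
        have h9 := h6 (lab N) (by omega)
        simp only [wv, Submodule.coe_sub, Submodule.coe_smul, Pi.sub_apply, Pi.smul_apply,
          smul_eq_mul]
        refine ⟨(h8.1.sub (h9.1.const_mul _)).const_mul _, ?_⟩
        rw [integral_const_mul, integral_sub h8.1 (h9.1.const_mul _), integral_const_mul, h8.2,
          h9.2, st_piece this, st_lab, g_diff, g_diff N 0]
        simp [mul_left_comm (LL N : ℝ)⁻¹, a3]
      refine T_mono hp (c := c) (fun x hx => h5 x (by_contra fun h8 => hx ?_)) (fun x hx => ?_) ?_ ?_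
      · simp only [wv, Submodule.coe_sum, Submodule.coe_sub, Submodule.coe_smul, Finset.sum_apply,
          Pi.sub_apply, Pi.smul_apply, ia_apply]
        exact sum_eq_zero fun i hi => by
          rw [if_neg fun h => h8 (A_sub (mem_piece (mem_range.1 hi)).1 h),
            if_neg fun h => h8 (A_sub (Or.inl rfl) h)]
          simp
      · simp only [jv, Submodule.coe_sum, Submodule.coe_smul, Finset.sum_apply, Pi.smul_apply,
          ia_apply] at hx
        obtain ⟨i, -, hi⟩ := exists_ne_zero_of_sum_ne_zero hx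
        obtain ⟨c', h8, h9⟩ := tot_cst (P := P) a N (2 * (q N + i) + 2)
        rw [h9 x (by_contra fun h10 => hi ?_), h8 (by omega)]
        rw [if_neg (by rwa [A, (st_unit N i).1])]
        simp
      · exact (integrable_finset_sum _ fun i hi => (h7 i hi).1).congr
          (Eventually.of_forall fun x => by simp)
      · simp only [Submodule.coe_sum, Submodule.coe_smul, Finset.sum_apply, Pi.smul_apply,
          smul_eq_mul]
        rw [integral_finset_sum _ fun i hi => (h7 i hi).1]
        exact sum_eq_zero fun i hi => (h7 i hi).2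
    · rw [h3, h4, ZZ_norm hp, ZZ_norm hp, mul_left_comm]
      refine mul_le_mul_of_nonneg_left ?_ (la_pos t).le
      have b1 := h (LL t) _ _ (al a t) (be a t)
        (show (m - 2 * q t - 1) / 2 ≤ (m - 2 * q t) / 2 by omega) (by omega)
      have b2 := S_tr hp (LL t) ((m - 2 * q t) / 2) (al a t)
      have b3 := mean_le hp (LL_pos t) (tr ((m - 2 * q t) / 2) (al a t))
      have b4 : 0 ≤ (LL t : ℝ) * |(LL t : ℝ)⁻¹ * ∑ k ∈ range (LL t), al a t k| ^ P.toReal := by
        positivity
      nlinarith [hS (LL t) (vv (LL t) (al a t) (be a t)), mul_nonneg hC b4]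
    · rw [h3, h4, show (m - 2 * q t) / 2 = 0 by omega, show (m - 2 * q t - 1) / 2 = 0 by omega]
      simp [ZZ, vv, tr]
    · have := q_succ t
      have h5 : ∀ i ∈ range (LL t), al (tr m a) t i = al a t i ∧ be (tr m a) t i = be a t i :=
        fun i hi => by
          have := mem_range.1 hi
          rw [h3, h4, tr, tr, if_pos (by omega), if_pos (by omega)]
          exact ⟨rfl, rfl⟩
      unfold ZZ vv
      congr 2
      · exact sum_congr rfl fun i hi => by rw [(h5 i hi).1]
      · exact sum_congr rfl fun i hi => by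
          rw [(h5 i hi).2, sum_congr rfl fun j hj => by rw [(h5 j hj).1]]
    · rw [← rpow_le_rpow_iff (norm_nonneg _) (by positivity) (show 0 < P.toReal by linarith),
        mul_rpow (by positivity) (norm_nonneg _), ZZ_norm hp, RR, ia,
        ind_norm hp (st_lt (by linarith [lab_le t])).le, la_mul, bb, mul_assoc, abs_mul,
        mul_rpow (abs_nonneg _) (abs_nonneg _), abs_of_pos (by positivity),
        show ((1 : ℝ) / 2) ^ (t + 3) = (2 ^ (t + 4))⁻¹ * 2 by rw [pow_succ 2]; simp; field_simp,
        mul_rpow (by positivity) zero_le_two, mul_assoc, mul_assoc]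
      refine mul_le_mul_of_nonneg_left ?_ (by positivity)
      have b1 := mean_le hp (LL_pos t) (vv (LL t) (al a t) (be a t))
      have b2 : (2 : ℝ) ≤ 2 ^ P.toReal := by
        simpa using rpow_le_rpow_of_exponent_le one_le_two hp.le
      have b4 : 0 ≤ (LL t : ℝ) * |(LL t : ℝ)⁻¹ * ∑ k ∈ range (LL t), al a t k| ^ P.toReal := by
        positivity
      have b5 := la_pos t
      refine le_trans ?_ (mul_le_mul_of_nonneg_right b2 (by
        have := hS (LL t) (al a t); have := hS (LL t) (vv (LL t) (al a t) (be a t)); positivity))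
      nlinarith [mul_le_mul_of_nonneg_left b1 b5.le, mul_nonneg b5.le b4,
        mul_nonneg b5.le (hS (LL t) (al a t))]
  · obtain ⟨a, b, c, h1, h2, h3⟩ := F_ge (P := P) n
    exact T_ne hp h1 h2 h3
  · refine Submodule.dense_iff_topologicalClosure_eq_top.2 (eq_top_iff.2 fun f _ =>
      top_of hp _ (Submodule.isClosed_topologicalClosure _) (fun x r => ?_) f)
    obtain ⟨t, n, h1, h2⟩ := shrink x r
    refine ⟨_, h1.1, by linarith [h1.2], Submodule.le_topologicalClosure _ ?_⟩
    have := Submodule.mem_map_of_mem (f := T P) (span_gm (P := P) t n)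
    rwa [Submodule.map_span, ← Set.range_comp] at this

end Pool.Agent.H.MP_ada34c_an
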