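import Mathlib

namespace Pool.Agent.H.MP_ada34c_an

open MeasureTheory Filter Topology

/-- Schauder basis: unique norm-convergent expansions -/
def IsBasis {X : Type} [NormedAddCommGroup X] [NormedSpace ℝ X] (f : ℕ → X) : Prop :=
  ∀ g : X, ∃! a : ℕ → ℝ, Tendsto (fun N => ∑ n ∈ Finset.range N, a n • f n) atTop (𝓝 g)

/-- the real space `L_p(ℝ)` -/
abbrev LR (p : ENNReal) : Type := Lp ℝ p (volume : Measure ℝ)

/-- almost everywhere non-negative -/
def NonNeg {p : ENNReal} (f : LR p) : Prop := ∀ᵐ x, 0 ≤ f x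

end Pool.Agent.H.MP_ada34c_an
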